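import Pool.Agent.Y79.LR.Step

set_option autoImplicit false

/-!
# Finitely generated virtually free groups embed in semidirect products of free groups with
permutations of the basis
-/

namespace Pool.Agent.Y79.LR.Base

open Set Pointwise Pool.Agent.Y28.LR Filter

/-! ## Reduced words -/

theorem reduced_aux {α Ω : Type} (a c : α → Ω) : ∀ l : List α, (∀ s ∈ l, a s ≠ c s) →
    l.IsChain (fun s t => c s ≠ a t) →
    FreeGroup.IsReduced (l.flatMap fun s => [(a s, true), (c s, false)]) := by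
  intro l
  induction l with
  | nil => intro _ _; exact FreeGroup.IsReduced.nil
  | cons s l ih =>
    intro h1 h2
    have h3 : a s ≠ c s := h1 s (by simp)
    cases l with
    | nil =>
      simp [FreeGroup.isReduced_cons_cons, h3]
    | cons t l =>
      have h4 := List.isChain_cons_cons.1 h2
      have ih' := ih (fun u hu => h1 u (List.mem_cons_of_mem _ hu)) h4.2
      simp only [List.flatMap_cons, List.cons_append, List.nil_append] at ih' ⊢
      rw [FreeGroup.isReduced_cons_cons, FreeGroup.isReduced_cons_cons]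
      exact ⟨fun h => absurd h h3, fun h => absurd h h4.1, ih'⟩

theorem prod_eq_mk {α Ω : Type} (a c : α → Ω) (l : List α) :
    (l.map fun s => FreeGroup.of (a s) * (FreeGroup.of (c s))⁻¹).prod =
      FreeGroup.mk (l.flatMap fun s => [(a s, true), (c s, false)]) := by
  induction l with
  | nil => rfl
  | cons s l ih =>
    rw [List.map_cons, List.prod_cons, ih, List.flatMap_cons, ← FreeGroup.mul_mk]
    rfl

theorem prod_ne_one {α Ω : Type} (a c : α → Ω) (l : List α) (h1 : ∀ s ∈ l, a s ≠ c s)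
    (h2 : l.IsChain (fun s t => c s ≠ a t))
    (h : (l.map fun s => FreeGroup.of (a s) * (FreeGroup.of (c s))⁻¹).prod = 1) : l = [] := by
  classical
  rw [prod_eq_mk] at h
  have h3 := (reduced_aux a c l h1 h2).reduce_eq
  rw [← FreeGroup.toWord_mk, h, FreeGroup.toWord_one] at h3
  cases l with
  | nil => rfl
  | cons s l => simp at h3

/-! ## Ends of the tree -/

section core

variable {G V : Type} [Group G] [MulAction G V] {E : Set (Set V)} {F : Subgroup G}

theorem compl_ss {s t : Set V} (h : s ⊂ t) : tᶜ ⊂ sᶜ :=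
  ⟨Set.compl_subset_compl.2 h.1, fun h' => h.2 (Set.compl_subset_compl.1 h')⟩

/-- the vertex of the tree at the beginning of the edge `A` -/
def vtx (E : Set (Set V)) (A : Set V) : Set (Set V) := {D | D ∈ E ∧ (A ⊆ D ∨ Aᶜ ⊂ D)}

theorem vtx_smul (hE : TreeSet G E) (g : G) (A D : Set V) :
    g • D ∈ vtx E (g • A) ↔ D ∈ vtx E A := by
  have h1 : (g • A)ᶜ = g • Aᶜ := (Set.smul_set_compl (a := g) (s := A)).symm
  have h2 : g • D ∈ E ↔ D ∈ E :=
    ⟨fun h => by simpa using hE.smul_mem g⁻¹ _ h, fun h => hE.smul_mem g _ h⟩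
  simp only [vtx, Set.mem_ofPred_eq, h1, h2, Set.smul_set_subset_smul_set_iff, ssubset_iff_subset_ne,
    ne_eq, smul_left_cancel_iff]

theorem vtx_eq (hE : TreeSet G E) {A B : Set V} (hA : A ∈ E) (hB : B ∈ E) (hBA : B ⊂ A)
    (hbet : ∀ D ∈ E, B ⊂ D → ¬ D ⊂ A) : vtx E A = vtx E Bᶜ := by
  obtain ⟨x, hxB⟩ := (hE.proper B hB).1
  obtain ⟨y, hyA⟩ := (hE.proper A hA).2
  have hBA' := hBA.subset
  ext D
  simp only [vtx, Set.mem_ofPred_eq, compl_compl]
  constructor
  · rintro ⟨hD, h | h⟩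
    · exact ⟨hD, Or.inr (hBA.trans_subset h)⟩
    · refine ⟨hD, ?_⟩
      rcases hE.nested D hD B hB with h1 | h1 | h1 | h1
      · exact absurd (hBA' (h1 (h.subset hyA))) hyA
      · by_cases h2 : B = D
        · exact absurd (hBA' (h2 ▸ h.subset hyA)) hyA
        · exact Or.inr (ssubset_iff_subset_ne.2 ⟨h1, h2⟩)
      · left
        have h3 : B ⊆ Dᶜ := fun z hz hz' => Set.disjoint_left.1 h1 hz' hz
        have h4 : Dᶜ ⊂ A := by
          have := compl_ss h
          rwa [compl_compl] at this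
        by_cases h5 : B = Dᶜ
        · rw [h5, compl_compl]
        · exact absurd h4 (hbet _ (hE.compl_mem D hD) (ssubset_iff_subset_ne.2 ⟨h3, h5⟩))
      · left
        intro z hz
        have : z ∈ D ∪ B := by rw [h1]; trivial
        exact this.resolve_right hz
  · rintro ⟨hD, h | h⟩
    · exact ⟨hD, Or.inr ((compl_ss hBA).trans_subset h)⟩
    · refine ⟨hD, ?_⟩
      rcases hE.nested D hD A hA with h1 | h1 | h1 | h1
      · left
        by_cases h5 : D = A
        · rw [h5]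
        · exact absurd (ssubset_iff_subset_ne.2 ⟨h1, h5⟩) (hbet D hD h)
      · exact Or.inl h1
      · exact absurd (hBA' hxB) (Set.disjoint_left.1 h1 (h.subset hxB))
      · right
        refine ssubset_iff_subset_ne.2 ⟨?_, ?_⟩
        · intro z hz
          have : z ∈ D ∪ A := by rw [h1]; trivial
          exact this.resolve_right hz
        · intro h2
          have := h.subset hxB
          rw [← h2] at this
          exact this (hBA' hxB)

theorem vtx_or (hE : TreeSet G E) {A : Set V} (hA : A ∈ E) {D : Set V} (hD : D ∈ E) :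
    D ∈ vtx E A ∨ Dᶜ ∈ vtx E A := by
  have hDc := hE.compl_mem D hD
  rcases hE.nested D hD A hA with h1 | h1 | h1 | h1
  · by_cases h : D = A
    · exact Or.inl ⟨hD, Or.inl (h ▸ subset_rfl)⟩
    · exact Or.inr ⟨hDc, Or.inr (compl_ss (ssubset_iff_subset_ne.2 ⟨h1, h⟩))⟩
  · exact Or.inl ⟨hD, Or.inl h1⟩
  · exact Or.inr ⟨hDc, Or.inl fun z hz hz' => Set.disjoint_left.1 h1 hz' hz⟩
  · have h2 : Aᶜ ⊆ D := by
      intro z hz
      have : z ∈ D ∪ A := by rw [h1]; trivial
      exact this.resolve_right hz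
    by_cases h : Aᶜ = D
    · refine Or.inr ⟨hDc, Or.inl ?_⟩
      rw [← h, compl_compl]
    · exact Or.inl ⟨hD, Or.inr (ssubset_iff_subset_ne.2 ⟨h2, h⟩)⟩

/-- the translates of a point by the powers of an element fixing a vertex converge to it -/
theorem eventually_mem (hE : TreeSet G E) {A : Set V} (hA : A ∈ E) {g : G}
    (hg : ∀ n : ℕ, 1 ≤ n → ∀ s ∈ E, g ^ n • s = s → False)
    (hv : ∀ D, g • D ∈ vtx E A ↔ D ∈ vtx E A) (p : V) {D : Set V} (hD : D ∈ vtx E A) :
    ∀ᶠ n : ℕ in atTop, (g⁻¹) ^ n • p ∈ D := by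
  obtain ⟨x, hx⟩ := (hE.proper A hA).1
  obtain ⟨y, hy⟩ := (hE.proper A hA).2
  have hfin : {D' ∈ vtx E A | p ∉ D'}.Finite := by
    refine ((hE.finite p x).union (hE.finite p y)).subset ?_
    rintro D' ⟨⟨h1, h2 | h2⟩, h3⟩
    · exact Or.inl ⟨h1, h3, h2 hx⟩
    · exact Or.inr ⟨h1, h3, h2.subset hy⟩
  have hpow : ∀ n : ℕ, g ^ n • D ∈ vtx E A := by
    intro n
    induction n with
    | zero => simpa using hD
    | succ n ih => rw [pow_succ', mul_smul]; exact (hv _).2 ih
  have hinj : Function.Injective (fun n : ℕ => g ^ n • D) := by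
    have key : ∀ i j : ℕ, i < j → g ^ i • D = g ^ j • D → False := by
      intro i j hij he
      have h2 : g ^ j = g ^ i * g ^ (j - i) := by rw [← pow_add]; congr 1; omega
      rw [h2, mul_smul] at he
      exact hg (j - i) (by omega) D hD.1 (MulAction.injective _ he).symm
    intro i j hij
    rcases lt_trichotomy i j with h | h | h
    · exact (key i j h hij).elim
    · exact h
    · exact (key j i h hij.symm).elim
  rw [← Nat.cofinite_eq_atTop, eventually_cofinite]
  refine Set.Finite.subset (hfin.preimage (f := fun n : ℕ => g ^ n • D) hinj.injOn) ?_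
  intro n hn
  refine ⟨hpow n, fun h => hn ?_⟩
  rw [Set.mem_smul_set_iff_inv_smul_mem, ← inv_pow] at h
  exact h

theorem eventually_closure (hE : TreeSet G E) {A : Set V} (hA : A ∈ E) {g : G}
    (hg : ∀ n : ℕ, 1 ≤ n → ∀ s ∈ E, g ^ n • s = s → False)
    (hv : ∀ D, g • D ∈ vtx E A ↔ D ∈ vtx E A) (p : V) {D : Set V}
    (hD : D ∈ BooleanSubalgebra.closure E) :
    (∀ᶠ n : ℕ in atTop, g ^ n • p ∈ D ∧ (g⁻¹) ^ n • p ∈ D) ∨
      (∀ᶠ n : ℕ in atTop, g ^ n • p ∉ D ∧ (g⁻¹) ^ n • p ∉ D) := by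
  have hg' : ∀ n : ℕ, 1 ≤ n → ∀ s ∈ E, (g⁻¹) ^ n • s = s → False := by
    intro n hn s hs h
    refine hg n hn s hs ?_
    rw [inv_pow, inv_smul_eq_iff] at h
    exact h.symm
  have hv' : ∀ D, g⁻¹ • D ∈ vtx E A ↔ D ∈ vtx E A := by
    intro D
    rw [← hv, smul_inv_smul]
  have key : ∀ D ∈ vtx E A, ∀ᶠ n : ℕ in atTop, g ^ n • p ∈ D ∧ (g⁻¹) ^ n • p ∈ D := by
    intro D hD
    have h1 := eventually_mem hE hA hg hv p hD
    have h2 := eventually_mem hE hA hg' hv' p hD
    rw [inv_inv] at h2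
    exact h2.and h1
  induction hD using BooleanSubalgebra.closure_bot_sup_induction with
  | mem x hx =>
    rcases vtx_or hE hA hx with h | h
    · exact Or.inl (key _ h)
    · exact Or.inr (key _ h)
  | bot => exact Or.inr (Eventually.of_forall fun n => ⟨id, id⟩)
  | sup x hx y hy h1 h2 =>
    rcases h1 with h1 | h1
    · exact Or.inl (h1.mono fun n h => ⟨Or.inl h.1, Or.inl h.2⟩)
    · rcases h2 with h2 | h2
      · exact Or.inl (h2.mono fun n h => ⟨Or.inr h.1, Or.inr h.2⟩)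
      · refine Or.inr ((h1.and h2).mono fun n h => ⟨?_, ?_⟩)
        · rintro (h' | h')
          · exact h.1.1 h'
          · exact h.2.1 h'
        · rintro (h' | h')
          · exact h.1.2 h'
          · exact h.2.2 h'
  | compl x hx h1 =>
    rcases h1 with h1 | h1
    · exact Or.inr (h1.mono fun n h => ⟨fun h' => h' h.1, fun h' => h' h.2⟩)
    · exact Or.inl (h1.mono fun n h => h)

/-- no element with an axis moves the reverse of an edge to the next one -/
theorem no_turn (hE : TreeSet G E) {A B : Set V} (hA : A ∈ E) (hB : B ∈ E) (hBA : B ⊂ A)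
    (hbet : ∀ D ∈ E, B ⊂ D → ¬ D ⊂ A) {g : G}
    (hg : ∀ n : ℕ, 1 ≤ n → ∀ s ∈ E, g ^ n • s = s → False) (hgA : g • Aᶜ = B)
    (hyp : ∃ D ∈ BooleanSubalgebra.closure E, ∃ p : V, ∀ n : ℕ, 1 ≤ n →
      g ^ n • p ∈ D ∧ (g⁻¹) ^ n • p ∉ D) : False := by
  have hgA' : g • A = Bᶜ := by
    rw [← hgA, Set.smul_set_compl, compl_compl]
  have hv : ∀ D, g • D ∈ vtx E A ↔ D ∈ vtx E A := by
    intro D
    rw [← vtx_smul hE g A D, hgA', ← vtx_eq hE hA hB hBA hbet]
  obtain ⟨D, hD, p, hp⟩ := hyp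
  rcases eventually_closure hE hA hg hv p hD with h | h
  · obtain ⟨n, hn, hn'⟩ := (h.and (eventually_ge_atTop 1)).exists
    exact (hp n hn').2 hn.2
  · obtain ⟨n, hn, hn'⟩ := (h.and (eventually_ge_atTop 1)).exists
    exact hn.1 (hp n hn').1

end core

/-! ## The labels -/

section labels

variable {G V : Type} [Group G] [MulAction G V]

/-- two sets are related if they are in the same orbit of `F` -/
def rel (V : Type) [MulAction G V] (F : Subgroup G) : Setoid (Set V) where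
  r s t := ∃ f ∈ F, f • s = t
  iseqv :=
    { refl := fun s => ⟨1, F.one_mem, one_smul _ _⟩
      symm := by
        rintro s t ⟨f, hf, rfl⟩
        exact ⟨f⁻¹, F.inv_mem hf, inv_smul_smul _ _⟩
      trans := by
        rintro s t u ⟨f, hf, rfl⟩ ⟨g, hg, rfl⟩
        exact ⟨g * f, F.mul_mem hg hf, mul_smul _ _ _⟩ }

/-- the set of orbits of `F` -/
abbrev Orb (V : Type) [MulAction G V] (F : Subgroup G) : Type := Quotient (rel V F)

/-- the class of a set -/
def cl (F : Subgroup G) (s : Set V) : Orb V F := Quotient.mk (rel V F) s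

theorem cl_eq {F : Subgroup G} {s t : Set V} : cl F s = cl F t ↔ ∃ f ∈ F, f • s = t :=
  Quotient.eq (r := rel V F)

/-- `G` acts on the set of orbits of `F` -/
instance orbAct (F : Subgroup G) [hF : F.Normal] : MulAction G (Orb V F) where
  smul g := Quotient.map (fun s => g • s) (by
    rintro s t ⟨f, hf, rfl⟩
    refine ⟨g * f * g⁻¹, hF.conj_mem f hf g, ?_⟩
    simp only [← mul_smul]
    congr 1
    group)
  one_smul := by
    intro x
    induction x using Quotient.inductionOn with | _ s => ?_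
    change cl F ((1 : G) • s) = cl F s
    rw [one_smul]
  mul_smul := by
    intro a b x
    induction x using Quotient.inductionOn with | _ s => ?_
    change cl F ((a * b) • s) = cl F (a • b • s)
    rw [mul_smul]

theorem smul_cl (F : Subgroup G) [F.Normal] (g : G) (s : Set V) : g • cl F s = cl F (g • s) := rfl

theorem smul_orb (F : Subgroup G) [F.Normal] {f : G} (hf : f ∈ F) (x : Orb V F) : f • x = x := by
  induction x using Quotient.inductionOn with | _ s => ?_
  change cl F (f • s) = cl F s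
  rw [cl_eq]
  exact ⟨f⁻¹, F.inv_mem hf, inv_smul_smul _ _⟩

/-- the label of a set -/
def lab (F : Subgroup G) (s : Set V) : FreeGroup (Orb V F) :=
  FreeGroup.of (cl F s) * (FreeGroup.of (cl F sᶜ))⁻¹

theorem lab_compl (F : Subgroup G) (s : Set V) : lab F sᶜ = (lab F s)⁻¹ := by
  simp [lab]

theorem lab_smul (F : Subgroup G) [F.Normal] (g : G) (s : Set V) :
    lab F (g • s) = g • lab F s := by
  simp only [lab, smul_mul', smul_inv', smul_of, smul_cl, Set.smul_set_compl]

theorem labels (hlist : P_list) (hw : P_w) {E : Set (Set V)} (hE : TreeSet G E)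
    (F : Subgroup G) [F.Normal] (v : V) :
    ∃ φ : G → FreeGroup (Orb V F), CH ⊤ φ ∧ ∀ (g : G) (l : List (Set V)),
      l.Pairwise (fun s t => t ⊂ s) → (∀ s, s ∈ l ↔ s ∈ E ∧ v ∉ s ∧ g • v ∈ s) →
      φ g = (l.map (lab F)).prod := by
  obtain ⟨w, hw1, hw2⟩ := hw V G (FreeGroup (Orb V F)) E hE (lab F) (fun s _ => lab_compl F s)
  have hequi : ∀ (g : G) (p q : V), w (g • p) (g • q) = g • w p q := by
    intro g p q
    obtain ⟨l, hl1, hl2⟩ := hlist V G E hE p q
    rw [hw2 p q l hl1 hl2, hw2 (g • p) (g • q) (l.map (g • ·)) ?_ ?_, List.smul_prod']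
    · simp only [List.map_map]
      congr 2
      funext s
      exact lab_smul F g s
    · rw [List.pairwise_map]
      refine hl1.imp ?_
      intro s t h
      exact ⟨Set.smul_set_mono h.1, fun h' => h.2 (Set.smul_set_subset_smul_set_iff.1 h')⟩
    · intro s
      have h1 : s ∈ l.map (g • ·) ↔ g⁻¹ • s ∈ l := by
        rw [List.mem_map]
        constructor
        · rintro ⟨t, ht, rfl⟩
          simpa using ht
        · intro h
          exact ⟨_, h, by simp⟩
      rw [h1, hl2, Set.mem_inv_smul_set_iff, Set.mem_inv_smul_set_iff]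
      have h2 : g⁻¹ • s ∈ E ↔ s ∈ E :=
        ⟨fun h => by simpa using hE.smul_mem g _ h, fun h => hE.smul_mem g⁻¹ _ h⟩
      rw [h2]
  refine ⟨fun g => w v (g • v), ?_, fun g l h1 h2 => hw2 _ _ l h1 h2⟩
  intro a _ b _
  change w v ((a * b) • v) = w v (a • v) * a • w v (b • v)
  rw [← hequi, hw1, mul_smul]

theorem faithful (hlist : P_list) (hw : P_w) {E : Set (Set V)} (hE : TreeSet G E)
    (F : Subgroup G) [F.Normal] (htf : ∀ f ∈ F, ∀ n : ℕ, 1 ≤ n → f ^ n = 1 → f = 1)
    (hEfree : ∀ s ∈ E, ∀ f ∈ F, f • s = s → f = 1)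
    (hsep : ∀ p q : V, p ≠ q → ∃ s ∈ E, p ∉ s ∧ q ∈ s)
    (hfree : ∀ (p : V) (g : G), g • p = p → g = 1)
    (hyp : ∀ f ∈ F, f ≠ 1 → ∃ D ∈ BooleanSubalgebra.closure E, ∃ p : V, ∀ n : ℕ, 1 ≤ n →
      f ^ n • p ∈ D ∧ (f⁻¹) ^ n • p ∉ D) (v : V) :
    ∃ φ : G → FreeGroup (Orb V F), CH ⊤ φ ∧ ∀ f ∈ F, φ f = 1 → f = 1 := by
  obtain ⟨φ, h1, h2⟩ := labels hlist hw hE F v
  refine ⟨φ, h1, fun f hf hφ => ?_⟩
  by_contra hf1
  obtain ⟨l, hl1, hl2⟩ := hlist V G E hE v (f • v)
  rw [h2 f l hl1 hl2] at hφ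
  have hlE : ∀ s ∈ l, s ∈ E := fun s hs => ((hl2 s).1 hs).1
  have hg : ∀ g ∈ F, g ≠ 1 → ∀ n : ℕ, 1 ≤ n → ∀ s ∈ E, g ^ n • s = s → False :=
    fun g hg hg1 n hn s hs h => hg1 (htf g hg n hn (hEfree s hs _ (pow_mem hg n) h))
  have hnil := prod_ne_one (fun s => cl F s) (fun s => cl F sᶜ) l (by
    -- an element reversing an edge
    intro s hs h
    obtain ⟨g, hg', h⟩ := cl_eq.1 h
    have h3 : g ^ 2 • s = s := by
      rw [pow_two, mul_smul, h, Set.smul_set_compl, h, compl_compl]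
    have h4 : g = 1 := htf g hg' 2 (by norm_num) (hEfree s (hlE s hs) _ (pow_mem hg' 2) h3)
    rw [h4, one_smul] at h
    obtain ⟨x, hx⟩ := (hE.proper s (hlE s hs)).1
    have : x ∈ sᶜ := h ▸ hx
    exact this hx) (by
    rw [List.isChain_iff_forall_rel_of_append_cons_cons]
    intro A B l₁ l₂ hl h
    obtain ⟨g, hg', h⟩ := cl_eq.1 h
    have hAl : A ∈ l := by rw [hl]; simp
    have hBl : B ∈ l := by rw [hl]; simp
    rw [hl, List.pairwise_append] at hl1
    obtain ⟨h5, h6, h7⟩ := hl1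
    have h8 := List.pairwise_cons.1 h6
    have h9 := List.pairwise_cons.1 h8.2
    have hBA : B ⊂ A := h8.1 B (by simp)
    have hbet : ∀ D ∈ E, B ⊂ D → ¬ D ⊂ A := by
      intro D hD hBD hDA
      have hDl : D ∈ l := by
        rw [hl2]
        exact ⟨hD, fun h => ((hl2 A).1 hAl).2.1 (hDA.subset h),
          hBD.subset ((hl2 B).1 hBl).2.2⟩
      rw [hl, List.mem_append, List.mem_cons, List.mem_cons] at hDl
      rcases hDl with h | rfl | rfl | h
      · exact (hDA.trans (h7 D h A (by simp))).false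
      · exact hDA.false
      · exact hBD.false
      · exact (hBD.trans (h9.1 D h)).false
    have hg1 : g ≠ 1 := by
      rintro rfl
      rw [one_smul] at h
      have h10 := ((hl2 B).1 hBl).2.2
      have h11 : f • v ∈ Aᶜ := by rw [h]; exact h10
      exact h11 ((hl2 A).1 hAl).2.2
    exact no_turn hE (hlE A hAl) (hlE B hBl) hBA hbet (hg g hg' hg1) h (hyp g hg' hg1)) hφ
  subst hnil
  have h3 : v = f • v := by
    by_contra h4
    obtain ⟨s, hs, h5, h6⟩ := hsep v (f • v) h4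
    exact absurd ((hl2 s).2 ⟨hs, h5, h6⟩) (by simp)
  exact hf1 (hfree v f h3.symm)

end labels

/-! ## The theorem -/

theorem smul_free {G : Type} [Group G] (p : G ⧸ (⊥ : Subgroup G)) (g : G) (h : g • p = p) :
    g = 1 := by
  induction p using QuotientGroup.induction_on with | _ a => ?_
  have h' : ((g * a : G) : G ⧸ (⊥ : Subgroup G)) = a := h
  rw [QuotientGroup.eq, Subgroup.mem_bot] at h'
  have h2 : a = g * a := by
    rw [inv_mul_eq_one] at h'
    exact h'.symm
  exact (mul_eq_right.1 h2.symm)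

theorem exists_beta {G X : Type} [Group G] (F : Subgroup G) [hF : F.Normal]
    (b : FreeGroup X ≃* F) : ∃ β : G ⧸ (⊥ : Subgroup G) → FreeGroup X, Function.Surjective β ∧
      ∀ (x : FreeGroup X) p, β (((b x : F) : G) • p) = x * β p := by
  have hmem : ∀ g : G, g * (Quotient.out (g : G ⧸ F))⁻¹ ∈ F := by
    intro g
    have h : ((Quotient.out (g : G ⧸ F) : G) : G ⧸ F) = (g : G ⧸ F) := Quotient.out_eq' _
    rw [QuotientGroup.eq] at h
    have := hF.conj_mem _ h (Quotient.out (g : G ⧸ F))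
    simpa using this
  have hout : ∀ a : G, Quotient.out (a : G ⧸ (⊥ : Subgroup G)) = a := by
    intro a
    have h : ((Quotient.out (a : G ⧸ (⊥ : Subgroup G)) : G) : G ⧸ (⊥ : Subgroup G)) = a :=
      Quotient.out_eq' _
    rw [QuotientGroup.eq, Subgroup.mem_bot, inv_mul_eq_one] at h
    exact h
  have heq : ∀ (x : FreeGroup X) p,
      (fun p : G ⧸ (⊥ : Subgroup G) => b.symm ⟨_, hmem (Quotient.out p)⟩) (((b x : F) : G) • p) =
      x * (fun p : G ⧸ (⊥ : Subgroup G) => b.symm ⟨_, hmem (Quotient.out p)⟩) p := by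
    intro x p
    induction p using QuotientGroup.induction_on with | _ a => ?_
    have h1 : Quotient.out (((b x : F) : G) • (a : G ⧸ (⊥ : Subgroup G))) = (b x : F) * a :=
      hout _
    have h2 : ((((b x : F) : G) * a : G) : G ⧸ F) = (a : G ⧸ F) := by
      rw [QuotientGroup.eq]
      have := hF.conj_mem _ (F.inv_mem (b x).2) a⁻¹
      simpa [mul_assoc] using this
    apply b.injective
    simp only [map_mul, MulEquiv.apply_symm_apply]
    apply Subtype.ext
    simp only [Subgroup.coe_mul]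
    rw [h1, hout, h2, mul_assoc]
  refine ⟨fun p => b.symm ⟨_, hmem (Quotient.out p)⟩, ?_, heq⟩
  intro x
  refine ⟨((b (x * ((fun p : G ⧸ (⊥ : Subgroup G) => b.symm ⟨_, hmem (Quotient.out p)⟩)
    ((1 : G) : G ⧸ (⊥ : Subgroup G)))⁻¹) : F) : G) • ((1 : G) : G ⧸ (⊥ : Subgroup G)), ?_⟩
  rw [heq, inv_mul_cancel_right]

theorem base : P_dunwoody → P_list → P_w → P_cutshyp → P_base := by
  intro hdun hlist hw hcut G X _ hG F _ _ b
  obtain ⟨β, hβ, hβ'⟩ := exists_beta F b
  obtain ⟨U₀, hU, hax⟩ := hcut X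
  have hb : ∀ f ∈ F, ∃ x : FreeGroup X, ((b x : F) : G) = f := by
    intro f hf
    exact ⟨b.symm ⟨f, hf⟩, by simp⟩
  have hb1 : ∀ x : FreeGroup X, ((b x : F) : G) = 1 ↔ x = 1 := by
    intro x
    simp
  have hpre : ∀ (x : FreeGroup X) (u : Set (FreeGroup X)),
      ((b x : F) : G) • (β ⁻¹' u) = β ⁻¹' (x • u) := by
    intro x u
    ext p
    rw [Set.mem_smul_set_iff_inv_smul_mem, Set.mem_preimage, Set.mem_preimage,
      Set.mem_smul_set_iff_inv_smul_mem]
    have h : (((b x : F) : G))⁻¹ = ((b x⁻¹ : F) : G) := by simp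
    rw [h, hβ']
    rfl
  -- `F` is torsion free
  have htf : ∀ f ∈ F, ∀ n : ℕ, 1 ≤ n → f ^ n = 1 → f = 1 := by
    intro f hf n hn h
    obtain ⟨x, rfl⟩ := hb f hf
    rw [hb1]
    by_contra hx
    have h' : x ^ n = 1 := by
      rw [← hb1]
      simpa using h
    obtain ⟨s, -, p, hp⟩ := hax x hx
    have := hp n hn
    rw [inv_pow, h', inv_one, one_mul] at this
    exact this.2 this.1
  -- the family of cuts
  set 𝒰 : Set (Set (G ⧸ (⊥ : Subgroup G))) := {s | (∃ u ∈ U₀, β ⁻¹' u = s) ∨ ∃ p, {p} = s}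
    with h𝒰
  have hinv : ∀ s ∈ 𝒰, ∀ f ∈ F, f • s ∈ 𝒰 := by
    rintro s (⟨u, hu, rfl⟩ | ⟨p, rfl⟩) f hf
    · obtain ⟨x, rfl⟩ := hb f hf
      exact Or.inl ⟨x • u, hU.smul_mem x u hu, (hpre x u).symm⟩
    · exact Or.inr ⟨f • p, by simp⟩
  have hfree : ∀ s ∈ 𝒰, ∀ f ∈ F, f • s = s → f = 1 := by
    rintro s (⟨u, hu, rfl⟩ | ⟨p, rfl⟩) f hf h
    · obtain ⟨x, rfl⟩ := hb f hf
      rw [hpre] at h
      rw [hb1]
      exact hU.free u hu x (hβ.preimage_injective h)
    · rw [Set.smul_set_singleton, Set.singleton_eq_singleton_iff] at h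
      exact smul_free p f h
  have hfin : ∀ p q : G ⧸ (⊥ : Subgroup G), {s ∈ 𝒰 | p ∉ s ∧ q ∈ s}.Finite := by
    intro p q
    refine (((hU.finite (β p) (β q)).image (β ⁻¹' ·)).union (Set.finite_singleton {q})).subset ?_
    rintro s ⟨⟨u, hu, rfl⟩ | ⟨r, rfl⟩, h1, h2⟩
    · exact Or.inl ⟨u, ⟨hu, h1, h2⟩, rfl⟩
    · right
      rw [Set.mem_singleton_iff] at h2 ⊢
      rw [h2]
  obtain ⟨S, hS⟩ := hG.out
  obtain ⟨n, hn⟩ := Step.bounded F S hinv hfree hfin
  have hS' : Subgroup.closure ((S : Set G) ∪ ((⊥ : Subgroup G) : Set G)) = ⊤ := by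
    rw [eq_top_iff, ← hS]
    exact Subgroup.closure_mono Set.subset_union_left
  obtain ⟨E, hE, hEbd, hEgen⟩ := hdun (G ⧸ (⊥ : Subgroup G)) G (Step.gr ⊥ S)
    (Step.gr_connected hS') (fun g x y h => Step.gr_smul g x y h) n
  have hgen : ∀ s ∈ 𝒰, s ∈ BooleanSubalgebra.closure E := fun s hs =>
    hEgen s (hn s hs).1 (hn s hs).2
  -- the family separates the points
  have hEsep : ∀ p q : G ⧸ (⊥ : Subgroup G), p ≠ q → ∃ s ∈ E, p ∉ s ∧ q ∈ s := by
    intro p q hpq
    by_contra hc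
    push Not at hc
    have hiff : ∀ s ∈ E, (p ∈ s ↔ q ∈ s) := by
      intro s hs
      constructor
      · intro hp
        by_contra hq
        exact hc sᶜ (hE.compl_mem s hs) (fun h => h hp) hq
      · intro hq
        by_contra hp
        exact hc s hs hp hq
    exact hpq ((Step.closure_iff hiff (hgen {p} (Or.inr ⟨p, rfl⟩))).1 rfl).symm
  -- trivial stabilisers on the family
  have hEfree : ∀ s ∈ E, ∀ f ∈ F, f • s = s → f = 1 := by
    intro s hs f hf hfs
    obtain ⟨e, he⟩ := (hEbd s hs).2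
    have hpow : ∀ m : ℕ, f ^ m • s = s := by
      intro m
      induction m with
      | zero => simp
      | succ m ih => rw [pow_succ, mul_smul, hfs, ih]
    have hmem : ∀ m : ℕ, (f ^ m • e.1, f ^ m • e.2) ∈ bd (Step.gr ⊥ S) s := by
      intro m
      refine ⟨Step.gr_smul _ _ _ he.1, ?_, ?_⟩
      · have := Set.smul_mem_smul_set (a := f ^ m) he.2.1
        rwa [hpow m] at this
      · intro h
        have h' : f ^ m • e.2 ∈ f ^ m • s := by rw [hpow m]; exact h
        exact he.2.2 (Set.smul_mem_smul_set_iff.1 h')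
    obtain ⟨i, -, j, -, hij, he'⟩ := Set.infinite_univ.exists_ne_map_eq_of_mapsTo
      (f := fun m : ℕ => (f ^ m • e.1, f ^ m • e.2)) (t := bd (Step.gr ⊥ S) s)
      (fun m _ => hmem m) (hEbd s hs).1
    have key : ∀ i j : ℕ, i < j → f ^ i • e.1 = f ^ j • e.1 → f = 1 := by
      intro i j hij hx
      have h2 : f ^ j = f ^ i * f ^ (j - i) := by rw [← pow_add]; congr 1; omega
      rw [h2, mul_smul] at hx
      exact htf f hf (j - i) (by omega)
        (smul_free e.1 _ (MulAction.injective _ hx).symm)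
    simp only [Prod.mk.injEq] at he'
    rcases lt_or_gt_of_ne hij with h | h
    · exact key i j h he'.1
    · exact key j i h he'.1.symm
  obtain ⟨φ, h1, h2⟩ := faithful hlist hw hE F htf hEfree hEsep smul_free (by
    intro f hf hf1
    obtain ⟨x, rfl⟩ := hb f hf
    have hx : x ≠ 1 := fun h => hf1 ((hb1 x).2 h)
    obtain ⟨u, hu, p₀, hp⟩ := hax x hx
    obtain ⟨p, rfl⟩ := hβ p₀
    refine ⟨β ⁻¹' u, hgen _ (Or.inl ⟨u, hu, rfl⟩), p, fun n hn => ?_⟩
    have h3 : (((b x : F) : G)) ^ n = ((b (x ^ n) : F) : G) := by simp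
    have h4 : (((b x : F) : G))⁻¹ ^ n = ((b ((x⁻¹) ^ n) : F) : G) := by simp
    rw [h3, h4, Set.mem_preimage, Set.mem_preimage, hβ', hβ']
    exact hp n hn) ((1 : G) : G ⧸ (⊥ : Subgroup G))
  exact ⟨Orb (G ⧸ (⊥ : Subgroup G)) F, orbAct F, φ, fun f hf ω => smul_orb F hf ω, h1, h2⟩

end Pool.Agent.Y79.LR.Base
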