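import Pool.Agent.Y28.LR.Stm

set_option autoImplicit false

/-!
# Dunwoody's theorem on nested generating sets of cuts

The set of the cuts with at most `n` edges of a connected graph is contained in the Boolean algebra
generated by a nested family of tight cuts, invariant under the automorphisms of the graph.
-/

namespace Pool.Agent.Y79.LR

open Set Pointwise Pool.Agent.Y28.LR

/-! ## Nested sets -/

section nested

variable {V : Type} {s t e : Set V}

theorem nested_iff : Nested s t ↔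
    (∀ x, x ∈ s → x ∈ t) ∨ (∀ x, x ∈ t → x ∈ s) ∨ (∀ x, x ∈ s → x ∉ t) ∨ (∀ x, x ∈ s ∨ x ∈ t) := by
  unfold Nested
  rw [Set.disjoint_left, Set.eq_univ_iff_forall]
  rfl

theorem nested_symm (h : Nested s t) : Nested t s := by
  rw [nested_iff] at h ⊢
  rcases h with h | h | h | h
  · exact Or.inr (Or.inl h)
  · exact Or.inl h
  · exact Or.inr (Or.inr (Or.inl fun x hx hx' => h x hx' hx))
  · exact Or.inr (Or.inr (Or.inr fun x => (h x).symm))

theorem nested_comm : Nested s t ↔ Nested t s := ⟨nested_symm, nested_symm⟩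

theorem nested_compl (h : Nested s t) : Nested sᶜ t := by
  rw [nested_iff] at h ⊢
  rcases h with h | h | h | h
  · refine Or.inr (Or.inr (Or.inr fun x => ?_))
    by_cases hx : x ∈ s
    · exact Or.inr (h x hx)
    · exact Or.inl hx
  · exact Or.inr (Or.inr (Or.inl fun x hx hx' => hx (h x hx')))
  · exact Or.inr (Or.inl fun x hx hx' => h x hx' hx)
  · refine Or.inl fun x hx => ?_
    rcases h x with h | h
    · exact absurd h hx
    · exact h

theorem nested_compl_left : Nested sᶜ t ↔ Nested s t := by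
  refine ⟨fun h => ?_, nested_compl⟩
  have := nested_compl h
  rwa [compl_compl] at this

theorem nested_compl_right : Nested s tᶜ ↔ Nested s t := by
  rw [nested_comm, nested_compl_left, nested_comm]

/-- a set nested with two crossing sets is nested with their intersection -/
theorem nested_inter (hst : ¬ Nested s t) (h1 : Nested e s) (h2 : Nested e t) :
    Nested e (s ∩ t) := by
  rw [nested_iff] at h1 h2 hst ⊢
  simp only [Set.mem_inter_iff]
  rcases h1 with h1 | h1 | h1 | h1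
  · rcases h2 with h2 | h2 | h2 | h2
    · exact Or.inl fun x hx => ⟨h1 x hx, h2 x hx⟩
    · exact Or.inr (Or.inl fun x hx => h2 x hx.2)
    · exact Or.inr (Or.inr (Or.inl fun x hx hx' => h2 x hx hx'.2))
    · exfalso
      apply hst
      refine Or.inr (Or.inr (Or.inr fun x => ?_))
      rcases h2 x with h | h
      · exact Or.inl (h1 x h)
      · exact Or.inr h
  · exact Or.inr (Or.inl fun x hx => h1 x hx.1)
  · exact Or.inr (Or.inr (Or.inl fun x hx hx' => h1 x hx hx'.1))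
  · rcases h2 with h2 | h2 | h2 | h2
    · exfalso
      apply hst
      refine Or.inr (Or.inr (Or.inr fun x => ?_))
      rcases h1 x with h | h
      · exact Or.inr (h2 x h)
      · exact Or.inl h
    · exact Or.inr (Or.inl fun x hx => h2 x hx.2)
    · exact Or.inr (Or.inr (Or.inl fun x hx hx' => h2 x hx hx'.2))
    · refine Or.inr (Or.inr (Or.inr fun x => ?_))
      rcases h1 x with h | h
      · exact Or.inl h
      · rcases h2 x with h' | h'
        · exact Or.inl h'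
        · exact Or.inr ⟨h, h'⟩

/-- a set nested with `s` is nested with one of two opposite corners -/
theorem nested_or (t : Set V) (h : Nested e s) : Nested e (s ∩ t) ∨ Nested e (sᶜ ∩ tᶜ) := by
  rw [nested_iff] at h
  rw [nested_iff, nested_iff]
  simp only [Set.mem_inter_iff, Set.mem_compl_iff]
  rcases h with h | h | h | h
  · exact Or.inr (Or.inr (Or.inr (Or.inl fun x hx hx' => hx'.1 (h x hx))))
  · exact Or.inl (Or.inr (Or.inl fun x hx => h x hx.1))
  · exact Or.inl (Or.inr (Or.inr (Or.inl fun x hx hx' => h x hx hx'.1)))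
  · refine Or.inr (Or.inr (Or.inl fun x hx => ?_))
    rcases h x with h | h
    · exact h
    · exact absurd h hx.1

theorem nested_inter_self (s t : Set V) : Nested s (s ∩ t) :=
  Or.inr (Or.inl Set.inter_subset_left)

theorem nested_inter_self' (s t : Set V) : Nested s (t ∩ s) :=
  Or.inr (Or.inl Set.inter_subset_right)

theorem nested_compl_inter (s t : Set V) : Nested s (sᶜ ∩ t) := by
  rw [← nested_compl_left]
  exact nested_inter_self _ _

theorem nested_compl_inter' (s t : Set V) : Nested s (t ∩ sᶜ) := by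
  rw [← nested_compl_left]
  exact nested_inter_self' _ _

end nested

/-! ## The size of a cut -/

section bd

variable {V : Type} {X : SimpleGraph V} {s t : Set V}

theorem mem_bd {e : V × V} : e ∈ bd X s ↔ X.Adj e.1 e.2 ∧ e.1 ∈ s ∧ e.2 ∉ s := Iff.rfl

theorem bd_compl (X : SimpleGraph V) (s : Set V) : bd X sᶜ = Prod.swap '' (bd X s) := by
  ext ⟨a, b⟩
  simp only [mem_bd, Set.mem_image, Prod.exists, Prod.swap_prod_mk, Prod.mk.injEq,
    Set.mem_compl_iff, not_not]
  constructor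
  · rintro ⟨h1, h2, h3⟩
    exact ⟨b, a, ⟨h1.symm, h3, h2⟩, rfl, rfl⟩
  · rintro ⟨c, d, ⟨h1, h2, h3⟩, rfl, rfl⟩
    exact ⟨h1.symm, h3, h2⟩

theorem ncard_bd_compl (X : SimpleGraph V) (s : Set V) : (bd X sᶜ).ncard = (bd X s).ncard := by
  rw [bd_compl, Set.ncard_image_of_injective _ Prod.swap_injective]

theorem finite_bd_compl : (bd X sᶜ).Finite ↔ (bd X s).Finite := by
  constructor
  · intro h
    have := h.image Prod.swap
    rw [← bd_compl, compl_compl] at this
    exact this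
  · intro h
    rw [bd_compl]
    exact h.image _

theorem bd_inter_subset : bd X (s ∩ t) ⊆ bd X s ∪ bd X t := by
  rintro ⟨a, b⟩ ⟨h1, h2, h3⟩
  by_cases hb : b ∈ s
  · exact Or.inr ⟨h1, h2.2, fun h => h3 ⟨hb, h⟩⟩
  · exact Or.inl ⟨h1, h2.1, hb⟩

theorem bd_union_subset : bd X (s ∪ t) ⊆ bd X s ∪ bd X t := by
  rintro ⟨a, b⟩ ⟨h1, h2, h3⟩
  rcases h2 with h2 | h2
  · exact Or.inl ⟨h1, h2, fun h => h3 (Or.inl h)⟩
  · exact Or.inr ⟨h1, h2, fun h => h3 (Or.inr h)⟩

theorem bd_inter_inter_subset : bd X (s ∩ t) ∩ bd X (s ∪ t) ⊆ bd X s ∩ bd X t := by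
  rintro ⟨a, b⟩ ⟨⟨h1, h2, h3⟩, h4, h5, h6⟩
  exact ⟨⟨h1, h2.1, fun h => h6 (Or.inl h)⟩, h1, h2.2, fun h => h6 (Or.inr h)⟩

theorem submod (hs : (bd X s).Finite) (ht : (bd X t).Finite) :
    (bd X (s ∩ t)).ncard + (bd X (s ∪ t)).ncard ≤ (bd X s).ncard + (bd X t).ncard := by
  have hst := hs.union ht
  have h1 : (bd X (s ∩ t)).Finite := hst.subset bd_inter_subset
  have h2 : (bd X (s ∪ t)).Finite := hst.subset bd_union_subset
  rw [← Set.ncard_union_add_ncard_inter _ _ h1 h2, ← Set.ncard_union_add_ncard_inter _ _ hs ht]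
  exact add_le_add
    (Set.ncard_le_ncard (Set.union_subset bd_inter_subset bd_union_subset) hst)
    (Set.ncard_le_ncard bd_inter_inter_subset (hs.inter_of_left _))

theorem submod_corner (hs : (bd X s).Finite) (ht : (bd X t).Finite) :
    (bd X (s ∩ t)).ncard + (bd X (sᶜ ∩ tᶜ)).ncard ≤ (bd X s).ncard + (bd X t).ncard := by
  rw [← Set.compl_union, ncard_bd_compl]
  exact submod hs ht

theorem submod_corner' (hs : (bd X s).Finite) (ht : (bd X t).Finite) :
    (bd X (s ∩ tᶜ)).ncard + (bd X (sᶜ ∩ t)).ncard ≤ (bd X s).ncard + (bd X t).ncard := by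
  have := submod_corner hs (finite_bd_compl.2 ht)
  rwa [compl_compl, ncard_bd_compl X t] at this

theorem finite_inter (hs : (bd X s).Finite) (ht : (bd X t).Finite) : (bd X (s ∩ t)).Finite :=
  (hs.union ht).subset bd_inter_subset

/-- the boundary of a proper nonempty set is nonempty -/
theorem bd_nonempty (hX : X.Connected) (h1 : s.Nonempty) (h2 : sᶜ.Nonempty) :
    (bd X s).Nonempty := by
  obtain ⟨a, ha⟩ := h1
  obtain ⟨b, hb⟩ := h2
  obtain ⟨w⟩ := hX.preconnected a b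
  obtain ⟨d, hd, h3, h4⟩ := w.exists_boundary_dart s ha hb
  exact ⟨(d.fst, d.snd), d.adj, h3, h4⟩

end bd

/-! ## Thin cuts -/

section thin

variable {V : Type} {X : SimpleGraph V} {s t : Set V}

/-- the Boolean algebra generated by the cuts with less than `j` edges -/
def Bl (X : SimpleGraph V) (j : ℕ) : BooleanSubalgebra (Set V) :=
  BooleanSubalgebra.closure {t | (bd X t).Finite ∧ (bd X t).ncard < j}

/-- a cut is thin if it is not generated by the smaller cuts -/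
def Thin (X : SimpleGraph V) (s : Set V) : Prop := (bd X s).Finite ∧ s ∉ Bl X (bd X s).ncard

theorem mem_Bl {j : ℕ} (h1 : (bd X s).Finite) (h2 : (bd X s).ncard < j) : s ∈ Bl X j :=
  BooleanSubalgebra.mem_closure_of_mem ⟨h1, h2⟩

theorem Thin.compl (h : Thin X s) : Thin X sᶜ :=
  ⟨finite_bd_compl.2 h.1, fun h' => h.2 (by
    rw [ncard_bd_compl] at h'
    exact BooleanSubalgebra.compl_mem_iff.1 h')⟩

theorem Thin.nonempty (h : Thin X s) : s.Nonempty := by
  rw [Set.nonempty_iff_ne_empty]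
  rintro rfl
  exact h.2 BooleanSubalgebra.bot_mem

theorem Thin.bd_nonempty (hX : X.Connected) (h : Thin X s) : (bd X s).Nonempty :=
  Pool.Agent.Y79.LR.bd_nonempty hX h.nonempty h.compl.nonempty

theorem Thin.conn (hX : X.Connected) (h : Thin X s) : Conn X s := by
  intro u hu hne hus
  by_contra hc
  push Not at hc
  have hc' : ∀ x ∈ u, ∀ y ∈ s, y ∉ u → ¬ X.Adj x y := hc
  have hd : (s \ u).Nonempty := by
    by_contra h'
    rw [Set.not_nonempty_iff_eq_empty, Set.sdiff_eq_empty] at h'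
    exact hus (hu.antisymm h')
  have hb1 : bd X u ⊆ bd X s := by
    rintro ⟨a, b⟩ ⟨h1, h2, h3⟩
    exact ⟨h1, hu h2, fun h' => hc' a h2 b h' h3 h1⟩
  have hb2 : bd X (s \ u) ⊆ bd X s := by
    rintro ⟨a, b⟩ ⟨h1, h2, h3⟩
    refine ⟨h1, h2.1, fun h' => ?_⟩
    by_cases hb : b ∈ u
    · exact hc' b hb a h2.1 h2.2 h1.symm
    · exact h3 ⟨h', hb⟩
  have hdis : Disjoint (bd X u) (bd X (s \ u)) := by
    rw [Set.disjoint_left]
    rintro ⟨a, b⟩ ⟨_, h2, _⟩ ⟨_, h5, _⟩
    exact h5.2 h2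
  have hf1 : (bd X u).Finite := h.1.subset hb1
  have hf2 : (bd X (s \ u)).Finite := h.1.subset hb2
  have hn1 : (bd X u).Nonempty := by
    refine Pool.Agent.Y79.LR.bd_nonempty hX hne ?_
    obtain ⟨y, hy⟩ := hd
    exact ⟨y, hy.2⟩
  have hn2 : (bd X (s \ u)).Nonempty := by
    refine Pool.Agent.Y79.LR.bd_nonempty hX hd ?_
    obtain ⟨y, hy⟩ := hne
    exact ⟨y, fun h' => h'.2 hy⟩
  have hle : (bd X u).ncard + (bd X (s \ u)).ncard ≤ (bd X s).ncard := by
    rw [← Set.ncard_union_eq hdis hf1 hf2]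
    exact Set.ncard_le_ncard (Set.union_subset hb1 hb2) h.1
  have hp1 : 0 < (bd X u).ncard := (Set.ncard_pos hf1).2 hn1
  have hp2 : 0 < (bd X (s \ u)).ncard := (Set.ncard_pos hf2).2 hn2
  have m1 : u ∈ Bl X (bd X s).ncard := mem_Bl hf1 (by omega)
  have m2 : s \ u ∈ Bl X (bd X s).ncard := mem_Bl hf2 (by omega)
  have m3 : u ∪ (s \ u) ∈ Bl X (bd X s).ncard := BooleanSubalgebra.sup_mem m1 m2
  rw [Set.union_sdiff_cancel hu] at m3
  exact h.2 m3

end thin

/-! ## The group action -/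

section action

variable {V G : Type} [Group G] [MulAction G V] {X : SimpleGraph V} {s t : Set V}

theorem nested_smul (g : G) : Nested (g • s) (g • t) ↔ Nested s t := by
  have key : ∀ (g : G) (s t : Set V), Nested s t → Nested (g • s) (g • t) := by
    intro g s t h
    rcases h with h | h | h | h
    · exact Or.inl (Set.smul_set_mono h)
    · exact Or.inr (Or.inl (Set.smul_set_mono h))
    · exact Or.inr (Or.inr (Or.inl ((Set.disjoint_smul_set).2 h)))
    · refine Or.inr (Or.inr (Or.inr ?_))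
      rw [← Set.smul_set_union, h, Set.smul_set_univ]
  refine ⟨fun h => ?_, key g s t⟩
  have := key g⁻¹ _ _ h
  rwa [inv_smul_smul, inv_smul_smul] at this

theorem bd_smul (hG : ∀ (g : G) (x y : V), X.Adj x y → X.Adj (g • x) (g • y)) (g : G)
    (s : Set V) : bd X (g • s) = (fun e : V × V => (g • e.1, g • e.2)) '' bd X s := by
  ext ⟨a, b⟩
  simp only [mem_bd, Set.mem_image, Prod.exists, Prod.mk.injEq, Set.mem_smul_set_iff_inv_smul_mem]
  constructor
  · rintro ⟨h1, h2, h3⟩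
    exact ⟨g⁻¹ • a, g⁻¹ • b, ⟨hG g⁻¹ a b h1, h2, h3⟩, smul_inv_smul g a, smul_inv_smul g b⟩
  · rintro ⟨c, d, ⟨h1, h2, h3⟩, rfl, rfl⟩
    refine ⟨hG g c d h1, ?_, ?_⟩
    · rwa [inv_smul_smul]
    · rwa [inv_smul_smul]

theorem smul_pair_injective (g : G) :
    Function.Injective (fun e : V × V => (g • e.1, g • e.2)) := by
  rintro ⟨a, b⟩ ⟨c, d⟩ h
  simp only [Prod.mk.injEq] at h
  exact Prod.ext (MulAction.injective g h.1) (MulAction.injective g h.2)

theorem ncard_bd_smul (hG : ∀ (g : G) (x y : V), X.Adj x y → X.Adj (g • x) (g • y)) (g : G)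
    (s : Set V) : (bd X (g • s)).ncard = (bd X s).ncard := by
  rw [bd_smul hG, Set.ncard_image_of_injective _ (smul_pair_injective g)]

theorem finite_bd_smul (hG : ∀ (g : G) (x y : V), X.Adj x y → X.Adj (g • x) (g • y)) (g : G)
    (h : (bd X s).Finite) : (bd X (g • s)).Finite := by
  rw [bd_smul hG]
  exact h.image _

theorem closure_smul_mem {E : Set (Set V)} (g : G) (hE : ∀ s ∈ E, g • s ∈ E) (s : Set V)
    (hs : s ∈ BooleanSubalgebra.closure E) : g • s ∈ BooleanSubalgebra.closure E := by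
  induction hs using BooleanSubalgebra.closure_bot_sup_induction with
  | mem x hx => exact BooleanSubalgebra.mem_closure_of_mem (hE x hx)
  | bot =>
    rw [Set.bot_eq_empty, Set.smul_set_empty]
    exact BooleanSubalgebra.bot_mem
  | sup x hx y hy h1 h2 =>
    change g • (x ∪ y) ∈ _
    rw [Set.smul_set_union]
    exact BooleanSubalgebra.sup_mem h1 h2
  | compl x hx h1 =>
    rw [Set.smul_set_compl]
    exact BooleanSubalgebra.compl_mem h1

end action

/-! ## Corners -/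

section corner

variable {V : Type} {X : SimpleGraph V} {s e c x : Set V} {R : BooleanSubalgebra (Set V)} {M : ℕ}

/-- the four corners of a pair of sets -/
def Corner (c s e : Set V) : Prop :=
  c = s ∩ e ∨ c = s ∩ eᶜ ∨ c = sᶜ ∩ e ∨ c = sᶜ ∩ eᶜ

theorem nested_corner (hc : Corner c s e) (hse : ¬ Nested s e) (h1 : Nested x s)
    (h2 : Nested x e) : Nested x c := by
  rcases hc with rfl | rfl | rfl | rfl
  · exact nested_inter hse h1 h2
  · exact nested_inter (fun h => hse (nested_compl_right.1 h)) h1 (nested_compl_right.2 h2)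
  · exact nested_inter (fun h => hse (nested_compl_left.1 h)) (nested_compl_right.2 h1) h2
  · exact nested_inter (fun h => hse (nested_compl_left.1 (nested_compl_right.1 h)))
      (nested_compl_right.2 h1) (nested_compl_right.2 h2)

theorem corner_left (hc : Corner c s e) : Nested s c := by
  rcases hc with rfl | rfl | rfl | rfl
  · exact nested_inter_self _ _
  · exact nested_inter_self _ _
  · exact nested_compl_inter _ _
  · exact nested_compl_inter _ _

theorem corner_right (hc : Corner c s e) : Nested e c := by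
  rcases hc with rfl | rfl | rfl | rfl
  · exact nested_inter_self' _ _
  · exact nested_compl_inter' _ _
  · exact nested_inter_self' _ _
  · exact nested_compl_inter' _ _

theorem corner_finite (hs : (bd X s).Finite) (he : (bd X e).Finite) (hc : Corner c s e) :
    (bd X c).Finite := by
  rcases hc with rfl | rfl | rfl | rfl
  · exact finite_inter hs he
  · exact finite_inter hs (finite_bd_compl.2 he)
  · exact finite_inter (finite_bd_compl.2 hs) he
  · exact finite_inter (finite_bd_compl.2 hs) (finite_bd_compl.2 he)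

theorem not_mem_or (s e : Set V) (h : s ∉ R) : s ∩ e ∉ R ∨ s ∩ eᶜ ∉ R := by
  by_contra hc
  push Not at hc
  apply h
  have := BooleanSubalgebra.sup_mem hc.1 hc.2
  change (s ∩ e) ∪ (s ∩ eᶜ) ∈ R at this
  rwa [← Set.inter_union_distrib_left, Set.union_compl_self, Set.inter_univ] at this

theorem corner_i (hR : ∀ s, (bd X s).Finite → (bd X s).ncard < M → s ∈ R)
    (hs : (bd X s).Finite) (hsM : (bd X s).ncard = M) (hsR : s ∉ R) (he : Thin X e)
    (heM : (bd X e).ncard ≤ M) :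
    ∃ c, Corner c s e ∧ (bd X c).Finite ∧ (bd X c).ncard = M ∧ c ∉ R := by
  have f1 := corner_finite hs he.1 (c := s ∩ e) (Or.inl rfl)
  have f2 := corner_finite hs he.1 (c := s ∩ eᶜ) (Or.inr (Or.inl rfl))
  have f3 := corner_finite hs he.1 (c := sᶜ ∩ e) (Or.inr (Or.inr (Or.inl rfl)))
  have f4 := corner_finite hs he.1 (c := sᶜ ∩ eᶜ) (Or.inr (Or.inr (Or.inr rfl)))
  have n1 : s ∩ e ∉ R → M ≤ (bd X (s ∩ e)).ncard := fun h =>
    not_lt.1 fun h' => h (hR _ f1 h')
  have n2 : s ∩ eᶜ ∉ R → M ≤ (bd X (s ∩ eᶜ)).ncard := fun h =>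
    not_lt.1 fun h' => h (hR _ f2 h')
  have n3 : sᶜ ∩ e ∉ R → M ≤ (bd X (sᶜ ∩ e)).ncard := fun h =>
    not_lt.1 fun h' => h (hR _ f3 h')
  have n4 : sᶜ ∩ eᶜ ∉ R → M ≤ (bd X (sᶜ ∩ eᶜ)).ncard := fun h =>
    not_lt.1 fun h' => h (hR _ f4 h')
  have F1 := not_mem_or s e hsR
  have F2 := not_mem_or sᶜ e (fun h => hsR (BooleanSubalgebra.compl_mem_iff.1 h))
  have F3 : (bd X e).ncard ≤ (bd X (s ∩ e)).ncard ∨ (bd X e).ncard ≤ (bd X (sᶜ ∩ e)).ncard := by
    by_contra hc
    push Not at hc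
    have := BooleanSubalgebra.sup_mem (mem_Bl f1 hc.1) (mem_Bl f3 hc.2)
    change (s ∩ e) ∪ (sᶜ ∩ e) ∈ _ at this
    rw [← Set.union_inter_distrib_right, Set.union_compl_self, Set.univ_inter] at this
    exact he.2 this
  have F4 : (bd X e).ncard ≤ (bd X (s ∩ eᶜ)).ncard ∨
      (bd X e).ncard ≤ (bd X (sᶜ ∩ eᶜ)).ncard := by
    by_contra hc
    push Not at hc
    have := BooleanSubalgebra.sup_mem (mem_Bl f2 hc.1) (mem_Bl f4 hc.2)
    change (s ∩ eᶜ) ∪ (sᶜ ∩ eᶜ) ∈ _ at this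
    rw [← Set.union_inter_distrib_right, Set.union_compl_self, Set.univ_inter] at this
    exact he.2 (BooleanSubalgebra.compl_mem_iff.1 this)
  have S1 := submod_corner hs he.1
  have S2 := submod_corner' hs he.1
  have C1 : (bd X (s ∩ e)).ncard ≤ M → s ∩ e ∉ R →
      ∃ c, Corner c s e ∧ (bd X c).Finite ∧ (bd X c).ncard = M ∧ c ∉ R :=
    fun h h' => ⟨_, Or.inl rfl, f1, le_antisymm h (n1 h'), h'⟩
  have C2 : (bd X (s ∩ eᶜ)).ncard ≤ M → s ∩ eᶜ ∉ R →
      ∃ c, Corner c s e ∧ (bd X c).Finite ∧ (bd X c).ncard = M ∧ c ∉ R :=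
    fun h h' => ⟨_, Or.inr (Or.inl rfl), f2, le_antisymm h (n2 h'), h'⟩
  have C3 : (bd X (sᶜ ∩ e)).ncard ≤ M → sᶜ ∩ e ∉ R →
      ∃ c, Corner c s e ∧ (bd X c).Finite ∧ (bd X c).ncard = M ∧ c ∉ R :=
    fun h h' => ⟨_, Or.inr (Or.inr (Or.inl rfl)), f3, le_antisymm h (n3 h'), h'⟩
  have C4 : (bd X (sᶜ ∩ eᶜ)).ncard ≤ M → sᶜ ∩ eᶜ ∉ R →
      ∃ c, Corner c s e ∧ (bd X c).Finite ∧ (bd X c).ncard = M ∧ c ∉ R :=
    fun h h' => ⟨_, Or.inr (Or.inr (Or.inr rfl)), f4, le_antisymm h (n4 h'), h'⟩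
  by_cases h1 : s ∩ e ∉ R
  · have := n1 h1
    by_cases h4 : sᶜ ∩ eᶜ ∉ R
    · have := n4 h4
      exact C1 (by omega) h1
    · have h3 : sᶜ ∩ e ∉ R := F2.resolve_right h4
      have := n3 h3
      rcases F4 with h | h
      · exact C3 (by omega) h3
      · exact C1 (by omega) h1
  · have h2 : s ∩ eᶜ ∉ R := F1.resolve_left h1
    have := n2 h2
    by_cases h3 : sᶜ ∩ e ∉ R
    · have := n3 h3
      exact C2 (by omega) h2
    · have h4 : sᶜ ∩ eᶜ ∉ R := F2.resolve_left h3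
      have := n4 h4
      rcases F3 with h | h
      · exact C4 (by omega) h4
      · exact C2 (by omega) h2

theorem corner_ii (hR : ∀ s, (bd X s).Finite → (bd X s).ncard < M → s ∈ R)
    (hs : (bd X s).Finite) (hsM : (bd X s).ncard = M) (hsR : s ∉ R) (he : (bd X e).Finite)
    (heM : (bd X e).ncard = M) (heR : e ∉ R) :
    ∃ a b, Corner a s e ∧ Corner b s e ∧ (bd X a).ncard = M ∧ (bd X b).ncard = M ∧ a ∉ R ∧
      b ∉ R ∧ (∀ x, Nested x s → Nested x a ∨ Nested x b) ∧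
      (∀ x, Nested x e → Nested x a ∨ Nested x b) := by
  have f1 := corner_finite hs he (c := s ∩ e) (Or.inl rfl)
  have f2 := corner_finite hs he (c := s ∩ eᶜ) (Or.inr (Or.inl rfl))
  have f3 := corner_finite hs he (c := sᶜ ∩ e) (Or.inr (Or.inr (Or.inl rfl)))
  have f4 := corner_finite hs he (c := sᶜ ∩ eᶜ) (Or.inr (Or.inr (Or.inr rfl)))
  have n1 : s ∩ e ∉ R → M ≤ (bd X (s ∩ e)).ncard := fun h =>
    not_lt.1 fun h' => h (hR _ f1 h')
  have n2 : s ∩ eᶜ ∉ R → M ≤ (bd X (s ∩ eᶜ)).ncard := fun h =>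
    not_lt.1 fun h' => h (hR _ f2 h')
  have n3 : sᶜ ∩ e ∉ R → M ≤ (bd X (sᶜ ∩ e)).ncard := fun h =>
    not_lt.1 fun h' => h (hR _ f3 h')
  have n4 : sᶜ ∩ eᶜ ∉ R → M ≤ (bd X (sᶜ ∩ eᶜ)).ncard := fun h =>
    not_lt.1 fun h' => h (hR _ f4 h')
  have F1 := not_mem_or s e hsR
  have F2 := not_mem_or sᶜ e (fun h => hsR (BooleanSubalgebra.compl_mem_iff.1 h))
  have F3 := not_mem_or e s heR
  have F4 := not_mem_or eᶜ s (fun h => heR (BooleanSubalgebra.compl_mem_iff.1 h))
  rw [Set.inter_comm e s, Set.inter_comm e sᶜ] at F3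
  rw [Set.inter_comm eᶜ s, Set.inter_comm eᶜ sᶜ] at F4
  have S1 := submod_corner hs he
  have S2 := submod_corner' hs he
  by_cases h : s ∩ e ∉ R ∧ sᶜ ∩ eᶜ ∉ R
  · have h1 := n1 h.1
    have h4 := n4 h.2
    refine ⟨s ∩ e, sᶜ ∩ eᶜ, Or.inl rfl, Or.inr (Or.inr (Or.inr rfl)), by omega, by omega,
      h.1, h.2, fun x hx => nested_or e hx, fun x hx => ?_⟩
    have := nested_or s hx
    rwa [Set.inter_comm e s, Set.inter_comm eᶜ sᶜ] at this
  · have h' : s ∩ eᶜ ∉ R ∧ sᶜ ∩ e ∉ R := by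
      by_cases h1 : s ∩ e ∉ R
      · have h4 : ¬ (sᶜ ∩ eᶜ ∉ R) := fun h4 => h ⟨h1, h4⟩
        exact ⟨F4.resolve_right h4, F2.resolve_right h4⟩
      · exact ⟨F1.resolve_left h1, F3.resolve_left h1⟩
    have h2 := n2 h'.1
    have h3 := n3 h'.2
    refine ⟨s ∩ eᶜ, sᶜ ∩ e, Or.inr (Or.inl rfl), Or.inr (Or.inr (Or.inl rfl)), by omega,
      by omega, h'.1, h'.2, fun x hx => ?_, fun x hx => ?_⟩
    · have := nested_or eᶜ hx
      rwa [compl_compl] at this
    · have := nested_or s (nested_compl_right.2 hx)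
      rwa [Set.inter_comm eᶜ s, Set.inter_comm eᶜᶜ sᶜ, compl_compl] at this

end corner

/-! ## The two minimisations -/

theorem exists_min {α : Type*} (P : α → Prop) (f : α → ℕ) (h : ∃ a, P a) :
    ∃ a, P a ∧ ∀ b, P b → f a ≤ f b := by
  classical
  have h' : ∃ n, ∃ a, P a ∧ f a = n := by
    obtain ⟨a, ha⟩ := h
    exact ⟨f a, a, ha, rfl⟩
  obtain ⟨a, ha, hn⟩ := Nat.find_spec h'
  refine ⟨a, ha, fun b hb => ?_⟩
  rw [hn]
  exact Nat.find_min' h' ⟨b, hb, rfl⟩

section steps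

variable {V G : Type} [Group G] [MulAction G V] {X : SimpleGraph V}
  {R : BooleanSubalgebra (Set V)} {M : ℕ} {E : Set (Set V)}

theorem finite_cross (hcross : P_cross) (hX : X.Connected) {T : Set (Set V)}
    (hT : ∀ t ∈ T, Thin X t ∧ (bd X t).ncard ≤ M) {s : Set V} (hs : (bd X s).Finite) :
    {t ∈ T | ¬ Nested t s}.Finite := by
  refine (hcross V X hX M s hs).subset ?_
  rintro t ⟨ht, hn⟩
  exact ⟨hn, (hT t ht).1.conn hX, (hT t ht).1.compl.conn hX, (hT t ht).1.1, (hT t ht).2⟩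

/-- step (i) -/
theorem step_i (hcross : P_cross) (hX : X.Connected)
    (hR : ∀ s, (bd X s).Finite → (bd X s).ncard < M → s ∈ R)
    (hE : ∀ s ∈ E, ∀ t ∈ E, Nested s t) (hT : ∀ t ∈ E, Thin X t ∧ (bd X t).ncard ≤ M)
    (h : ∃ s, (bd X s).Finite ∧ (bd X s).ncard = M ∧ s ∉ R) :
    ∃ s, ((bd X s).Finite ∧ (bd X s).ncard = M ∧ s ∉ R) ∧ ∀ e ∈ E, Nested e s := by
  obtain ⟨s, hs, hmin⟩ := exists_min _ (fun s => {t ∈ E | ¬ Nested t s}.ncard) h
  refine ⟨s, hs, fun e he => ?_⟩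
  by_contra hn
  have hn' : ¬ Nested s e := fun h => hn (nested_symm h)
  obtain ⟨c, hc, hc1, hc2, hc3⟩ := corner_i hR hs.1 hs.2.1 hs.2.2 (hT e he).1 (hT e he).2
  have hlt : {t ∈ E | ¬ Nested t c}.ncard < {t ∈ E | ¬ Nested t s}.ncard := by
    refine Set.ncard_lt_ncard ?_ (finite_cross hcross hX hT hs.1)
    rw [Set.ssubset_iff_of_subset]
    · exact ⟨e, ⟨he, hn⟩, fun h' => h'.2 (corner_right hc)⟩
    · rintro t ⟨ht, htc⟩
      exact ⟨ht, fun h' => htc (nested_corner hc hn' h' (hE t ht e he))⟩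
  exact absurd (hmin c ⟨hc1, hc2, hc3⟩) (not_le.2 hlt)

/-- step (ii) -/
theorem step_ii (hcross : P_cross) (hX : X.Connected)
    (hG : ∀ (g : G) (x y : V), X.Adj x y → X.Adj (g • x) (g • y))
    (hR : ∀ s, (bd X s).Finite → (bd X s).ncard < M → s ∈ R)
    (hRG : ∀ (g : G), ∀ s ∈ R, g • s ∈ R) (hEG : ∀ (g : G), ∀ s ∈ E, g • s ∈ E)
    (h : ∃ s, ((bd X s).Finite ∧ (bd X s).ncard = M ∧ s ∉ R) ∧ ∀ e ∈ E, Nested e s) :
    ∃ s, (((bd X s).Finite ∧ (bd X s).ncard = M ∧ s ∉ R) ∧ ∀ e ∈ E, Nested e s) ∧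
      ∀ g : G, Nested s (g • s) := by
  set S : Set (Set V) :=
    {s | ((bd X s).Finite ∧ (bd X s).ncard = M ∧ s ∉ R) ∧ ∀ e ∈ E, Nested e s} with hS
  have hT : ∀ t ∈ S, Thin X t ∧ (bd X t).ncard ≤ M := by
    intro t ht
    refine ⟨⟨ht.1.1, fun h' => ht.1.2.2 ?_⟩, ht.1.2.1.le⟩
    rw [ht.1.2.1] at h'
    refine (BooleanSubalgebra.closure_le (L := R)).2 ?_ h'
    rintro u ⟨hu1, hu2⟩
    exact hR u hu1 hu2
  have hSG : ∀ (g : G), ∀ s ∈ S, g • s ∈ S := by
    rintro g s ⟨⟨h1, h2, h3⟩, h4⟩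
    refine ⟨⟨finite_bd_smul hG g h1, (ncard_bd_smul hG g s).trans h2, fun h' => h3 ?_⟩, ?_⟩
    · have := hRG g⁻¹ _ h'
      rwa [inv_smul_smul] at this
    · intro e he
      have := h4 _ (hEG g⁻¹ e he)
      rwa [← nested_smul g, smul_inv_smul] at this
  obtain ⟨s, hs, hmin⟩ := exists_min (fun s => s ∈ S) (fun s => {t ∈ S | ¬ Nested t s}.ncard) h
  refine ⟨s, hs, fun g => ?_⟩
  by_contra hn
  have ht : g • s ∈ S := hSG g s hs
  -- the translate has the same number of crossings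
  have hmu : {t ∈ S | ¬ Nested t (g • s)}.ncard = {t ∈ S | ¬ Nested t s}.ncard := by
    have : {t ∈ S | ¬ Nested t (g • s)} = (fun t => g • t) '' {t ∈ S | ¬ Nested t s} := by
      ext t
      simp only [Set.mem_image, Set.mem_ofPred_eq]
      constructor
      · rintro ⟨h1, h2⟩
        refine ⟨g⁻¹ • t, ⟨hSG g⁻¹ t h1, fun h' => h2 ?_⟩, smul_inv_smul g t⟩
        have := (nested_smul g).2 h'
        rwa [smul_inv_smul] at this
      · rintro ⟨u, ⟨h1, h2⟩, rfl⟩
        exact ⟨hSG g u h1, fun h' => h2 ((nested_smul g).1 h')⟩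
    rw [this, Set.ncard_image_of_injective _ (MulAction.injective g)]
  obtain ⟨a, b, ha, hb, ha1, hb1, ha2, hb2, hab, hab'⟩ :=
    corner_ii hR hs.1.1 hs.1.2.1 hs.1.2.2 ht.1.1 ht.1.2.1 ht.1.2.2
  have haS : a ∈ S := ⟨⟨corner_finite hs.1.1 ht.1.1 ha, ha1, ha2⟩,
    fun e he => nested_corner ha hn (hs.2 e he) (ht.2 e he)⟩
  have hbS : b ∈ S := ⟨⟨corner_finite hs.1.1 ht.1.1 hb, hb1, hb2⟩,
    fun e he => nested_corner hb hn (hs.2 e he) (ht.2 e he)⟩
  have fs := finite_cross hcross hX hT hs.1.1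
  have ft := finite_cross hcross hX hT ht.1.1
  have fa := finite_cross hcross hX hT haS.1.1
  have fb := finite_cross hcross hX hT hbS.1.1
  have hm1 := hmin a haS
  have hm2 := hmin b hbS
  beta_reduce at hm1 hm2
  have e1 := Set.ncard_union_add_ncard_inter _ _ fa fb
  have e2 := Set.ncard_union_add_ncard_inter _ _ fs ft
  have e3 : ({t ∈ S | ¬ Nested t a} ∪ {t ∈ S | ¬ Nested t b}).ncard <
      ({t ∈ S | ¬ Nested t s} ∪ {t ∈ S | ¬ Nested t (g • s)}).ncard := by
    refine Set.ncard_lt_ncard ?_ (fs.union ft)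
    rw [Set.ssubset_iff_of_subset]
    · refine ⟨s, Or.inr ⟨hs, hn⟩, ?_⟩
      rintro (h' | h')
      · exact h'.2 (corner_left ha)
      · exact h'.2 (corner_left hb)
    · rintro x (hx | hx)
      · by_contra hc
        simp only [Set.mem_union, Set.mem_ofPred_eq, not_or, not_and, not_not] at hc
        exact hx.2 (nested_corner ha hn (hc.1 hx.1) (hc.2 hx.1))
      · by_contra hc
        simp only [Set.mem_union, Set.mem_ofPred_eq, not_or, not_and, not_not] at hc
        exact hx.2 (nested_corner hb hn (hc.1 hx.1) (hc.2 hx.1))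
  have e4 : ({t ∈ S | ¬ Nested t a} ∩ {t ∈ S | ¬ Nested t b}).ncard ≤
      ({t ∈ S | ¬ Nested t s} ∩ {t ∈ S | ¬ Nested t (g • s)}).ncard := by
    refine Set.ncard_le_ncard ?_ (fs.inter_of_left _)
    rintro x ⟨hx1, hx2⟩
    refine ⟨⟨hx1.1, fun h' => ?_⟩, ⟨hx1.1, fun h' => ?_⟩⟩
    · rcases hab x h' with h' | h'
      · exact hx1.2 h'
      · exact hx2.2 h'
    · rcases hab' x h' with h' | h'
      · exact hx1.2 h'
      · exact hx2.2 h'
  omega

end steps

/-! ## The induction -/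

section final

variable {V G : Type} [Group G] [MulAction G V] {X : SimpleGraph V}

/-- the families of the induction -/
structure Stage (G : Type) [Group G] [MulAction G V] (X : SimpleGraph V) (m : ℕ)
    (E : Set (Set V)) : Prop where
  smul_mem : ∀ (g : G), ∀ s ∈ E, g • s ∈ E
  compl_mem : ∀ s ∈ E, sᶜ ∈ E
  nested : ∀ s ∈ E, ∀ t ∈ E, Nested s t
  thin : ∀ s ∈ E, Thin X s ∧ (bd X s).ncard ≤ m
  gen : ∀ s : Set V, (bd X s).Finite → (bd X s).ncard ≤ m → s ∈ BooleanSubalgebra.closure E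

theorem stage_zero (hX : X.Connected) : Stage G X 0 (∅ : Set (Set V)) where
  smul_mem _ _ h := absurd h (Set.notMem_empty _)
  compl_mem _ h := absurd h (Set.notMem_empty _)
  nested _ h := absurd h (Set.notMem_empty _)
  thin _ h := absurd h (Set.notMem_empty _)
  gen s hs h := by
    have h0 : bd X s = ∅ := (Set.ncard_eq_zero hs).1 (Nat.le_zero.1 h)
    by_cases h1 : s.Nonempty
    · by_cases h2 : sᶜ.Nonempty
      · have := bd_nonempty hX h1 h2
        rw [h0] at this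
        exact absurd this Set.not_nonempty_empty
      · rw [Set.not_nonempty_iff_eq_empty, Set.compl_empty_iff] at h2
        rw [h2]
        exact BooleanSubalgebra.top_mem
    · rw [Set.not_nonempty_iff_eq_empty] at h1
      rw [h1]
      exact BooleanSubalgebra.bot_mem

theorem stage_succ (hcross : P_cross) (hX : X.Connected)
    (hG : ∀ (g : G) (x y : V), X.Adj x y → X.Adj (g • x) (g • y)) {m : ℕ} {E : Set (Set V)}
    (h : Stage G X m E) : ∃ E', Stage G X (m + 1) E' := by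
  set S : Set (Set (Set V)) := {E' | E ⊆ E' ∧ (∀ (g : G), ∀ s ∈ E', g • s ∈ E') ∧
    (∀ s ∈ E', sᶜ ∈ E') ∧ (∀ s ∈ E', ∀ t ∈ E', Nested s t) ∧
    ∀ s ∈ E', Thin X s ∧ (bd X s).ncard ≤ m + 1} with hS
  have hES : E ∈ S := ⟨subset_rfl, h.smul_mem, h.compl_mem, h.nested,
    fun s hs => ⟨(h.thin s hs).1, (h.thin s hs).2.trans (Nat.le_succ m)⟩⟩
  obtain ⟨E', hEE', hmax⟩ := zorn_subset_nonempty S (by
    intro c hc hchain hne
    refine ⟨⋃₀ c, ⟨?_, ?_, ?_, ?_, ?_⟩, fun s hs => Set.subset_sUnion_of_mem hs⟩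
    · obtain ⟨D, hD⟩ := hne
      exact (hc hD).1.trans (Set.subset_sUnion_of_mem hD)
    · rintro g s ⟨D, hD, hs⟩
      exact ⟨D, hD, (hc hD).2.1 g s hs⟩
    · rintro s ⟨D, hD, hs⟩
      exact ⟨D, hD, (hc hD).2.2.1 s hs⟩
    · rintro s ⟨D, hD, hs⟩ t ⟨D', hD', ht⟩
      rcases hchain.total hD hD' with hle | hle
      · exact (hc hD').2.2.2.1 s (hle hs) t ht
      · exact (hc hD).2.2.2.1 s hs t (hle ht)
    · rintro s ⟨D, hD, hs⟩
      exact (hc hD).2.2.2.2 s hs) E hES
  obtain ⟨h1, h2, h3, h4, h5⟩ := hmax.prop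
  refine ⟨E', ⟨h2, h3, h4, h5, ?_⟩⟩
  by_contra hcon
  push Not at hcon
  obtain ⟨s, hs1, hs2, hs3⟩ := hcon
  have hR : ∀ s, (bd X s).Finite → (bd X s).ncard < m + 1 →
      s ∈ BooleanSubalgebra.closure E' := fun s hs hs' =>
    BooleanSubalgebra.closure_mono hEE' (h.gen s hs (Nat.lt_succ_iff.1 hs'))
  have hs4 : (bd X s).ncard = m + 1 := by
    refine le_antisymm hs2 (not_lt.1 fun h' => hs3 (hR s hs1 h'))
  obtain ⟨s₀, hs₀, hs₀'⟩ := step_ii hcross hX hG hR
    (fun g s hs => closure_smul_mem g (h2 g) s hs) h2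
    (step_i hcross hX hR h4 h5 ⟨s, hs1, hs4, hs3⟩)
  have hT : Thin X s₀ := by
    refine ⟨hs₀.1.1, fun h' => hs₀.1.2.2 ?_⟩
    rw [hs₀.1.2.1] at h'
    refine (BooleanSubalgebra.closure_le (L := BooleanSubalgebra.closure E')).2 ?_ h'
    rintro u ⟨hu1, hu2⟩
    exact hR u hu1 hu2
  have hthin : ∀ (g : G) (t : Set V), Thin X t → Thin X (g • t) := by
    intro g t ht
    refine ⟨finite_bd_smul hG g ht.1, fun h' => ht.2 ?_⟩
    rw [ncard_bd_smul hG] at h'
    have := closure_smul_mem g⁻¹ (fun u hu => ?_) _ h'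
    · rwa [inv_smul_smul] at this
    · exact ⟨finite_bd_smul hG g⁻¹ hu.1, by rw [ncard_bd_smul hG]; exact hu.2⟩
  have hnn : ∀ g k : G, Nested (g • s₀) (k • s₀) := by
    intro g k
    have := (nested_smul g).2 (hs₀' (g⁻¹ * k))
    rwa [smul_smul, mul_inv_cancel_left] at this
  set E'' : Set (Set V) := E' ∪ {t | ∃ g : G, t = g • s₀ ∨ t = (g • s₀)ᶜ} with hE''
  have hsub : E' ⊆ E'' := Set.subset_union_left
  have hmem : E'' ∈ S := by
    refine ⟨h1.trans hsub, ?_, ?_, ?_, ?_⟩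
    · rintro g t (ht | ⟨k, rfl | rfl⟩)
      · exact Or.inl (h2 g t ht)
      · exact Or.inr ⟨g * k, Or.inl (smul_smul g k s₀)⟩
      · refine Or.inr ⟨g * k, Or.inr ?_⟩
        rw [← Set.smul_set_compl, smul_smul, Set.smul_set_compl]
    · rintro t (ht | ⟨k, rfl | rfl⟩)
      · exact Or.inl (h3 t ht)
      · exact Or.inr ⟨k, Or.inr rfl⟩
      · exact Or.inr ⟨k, Or.inl (compl_compl _)⟩
    · have key : ∀ (t : Set V), t ∈ E' → ∀ g : G, Nested t (g • s₀) := by
        intro t ht g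
        have := hs₀.2 _ (h2 g⁻¹ t ht)
        rwa [← nested_smul g, smul_inv_smul] at this
      rintro t (ht | ⟨k, rfl | rfl⟩) u (hu | ⟨l, rfl | rfl⟩)
      · exact h4 t ht u hu
      · exact key t ht l
      · exact nested_compl_right.2 (key t ht l)
      · exact nested_symm (key u hu k)
      · exact hnn k l
      · exact nested_compl_right.2 (hnn k l)
      · exact nested_compl_left.2 (nested_symm (key u hu k))
      · exact nested_compl_left.2 (hnn k l)
      · exact nested_compl_left.2 (nested_compl_right.2 (hnn k l))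
    · rintro t (ht | ⟨k, rfl | rfl⟩)
      · exact h5 t ht
      · exact ⟨hthin k s₀ hT, by rw [ncard_bd_smul hG, hs₀.1.2.1]⟩
      · exact ⟨(hthin k s₀ hT).compl, by rw [ncard_bd_compl, ncard_bd_smul hG, hs₀.1.2.1]⟩
  have hle : E'' ⊆ E' := hmax.le_of_ge hmem hsub
  have : s₀ ∈ E' := hle (Or.inr ⟨1, Or.inl (one_smul G s₀).symm⟩)
  exact hs₀.1.2.2 (BooleanSubalgebra.mem_closure_of_mem this)

end final

/-- Dunwoody's theorem on nested generating sets of cuts -/
theorem dunwoody : P_cross → P_sep → P_dunwoody := by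
  intro hcross hsep V G _ _ X hX hG n
  have hst : ∀ m : ℕ, ∃ E : Set (Set V), Stage G X m E := by
    intro m
    induction m with
    | zero => exact ⟨∅, stage_zero hX⟩
    | succ m ih =>
      obtain ⟨E, hE⟩ := ih
      exact stage_succ hcross hX hG hE
  obtain ⟨E, hE⟩ := hst n
  refine ⟨E, ⟨hE.smul_mem, hE.compl_mem, fun s hs =>
    ⟨(hE.thin s hs).1.nonempty, (hE.thin s hs).1.compl.nonempty⟩, hE.nested, fun p q => ?_⟩,
    fun s hs => ⟨(hE.thin s hs).1.1, (hE.thin s hs).1.bd_nonempty hX⟩, hE.gen⟩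
  refine (hsep V X hX n p q).subset ?_
  rintro s ⟨hs, hp, hq⟩
  exact ⟨hp, hq, (hE.thin s hs).1.conn hX, (hE.thin s hs).1.compl.conn hX,
    (hE.thin s hs).1.1, (hE.thin s hs).2⟩

end Pool.Agent.Y79.LR
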