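import Pool.Agent.Y28.LR.Stm

set_option autoImplicit false

/-!
# The relatively finitely generated extension step
-/

namespace Pool.Agent.Y79.LR.Step

open Set Pointwise Pool.Agent.Y28.LR

section graph

variable {G : Type} [Group G] {K : Subgroup G}

/-- the relative Cayley graph on `G ⧸ K` -/
def gr (K : Subgroup G) (S : Finset G) : SimpleGraph (G ⧸ K) where
  Adj p q := p ≠ q ∧ ∃ a : G, ∃ σ ∈ S,
    (p = (a : G ⧸ K) ∧ q = ((a * σ : G) : G ⧸ K)) ∨ (q = (a : G ⧸ K) ∧ p = ((a * σ : G) : G ⧸ K))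
  symm := ⟨fun _ _ ⟨h, a, σ, hσ, h'⟩ => ⟨h.symm, a, σ, hσ, h'.symm⟩⟩
  loopless := ⟨fun _ h => h.1 rfl⟩

theorem gr_reach {S : Finset G} (a : G) {σ : G} (hσ : σ ∈ S) :
    (gr K S).Reachable (a : G ⧸ K) ((a * σ : G) : G ⧸ K) := by
  by_cases h : (a : G ⧸ K) = ((a * σ : G) : G ⧸ K)
  · rw [h]
  · exact SimpleGraph.Adj.reachable ⟨h, a, σ, hσ, Or.inl ⟨rfl, rfl⟩⟩

theorem gr_connected {S : Finset G} (hS : Subgroup.closure ((S : Set G) ∪ K) = ⊤) :
    (gr K S).Connected := by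
  have key : ∀ g : G, ∀ a : G, (gr K S).Reachable (a : G ⧸ K) ((a * g : G) : G ⧸ K) := by
    intro g
    have hg : g ∈ Subgroup.closure ((S : Set G) ∪ K) := by rw [hS]; trivial
    induction hg using Subgroup.closure_induction with
    | mem x hx =>
      intro a
      rcases hx with hx | hx
      · exact gr_reach a hx
      · have : (a : G ⧸ K) = ((a * x : G) : G ⧸ K) := by
          rw [QuotientGroup.eq]
          simpa using hx
        rw [← this]
    | one => intro a; rw [mul_one]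
    | mul x y hx hy h1 h2 =>
      intro a
      rw [← mul_assoc]
      exact (h1 a).trans (h2 (a * x))
    | inv x hx h1 =>
      intro a
      have := h1 (a * x⁻¹)
      rw [inv_mul_cancel_right] at this
      exact this.symm
  refine ⟨fun p q => ?_⟩
  induction p using QuotientGroup.induction_on with | _ a => ?_
  induction q using QuotientGroup.induction_on with | _ b => ?_
  have := key (a⁻¹ * b) a
  rwa [mul_inv_cancel_left] at this

theorem gr_smul {S : Finset G} (g : G) (x y : G ⧸ K) (h : (gr K S).Adj x y) :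
    (gr K S).Adj (g • x) (g • y) := by
  obtain ⟨h, a, σ, hσ, h'⟩ := h
  refine ⟨fun e => h (MulAction.injective g e), g * a, σ, hσ, ?_⟩
  rcases h' with ⟨rfl, rfl⟩ | ⟨rfl, rfl⟩
  · exact Or.inl ⟨rfl, by rw [mul_assoc]; rfl⟩
  · exact Or.inr ⟨rfl, by rw [mul_assoc]; rfl⟩

end graph

section bounds

variable {G : Type} [Group G] {F K : Subgroup G} {U : Set (Set (G ⧸ K))}

/-- the edges of the graph fall into finitely many orbits of `F` -/
theorem edge_orbits (F : Subgroup G) [F.FiniteIndex] (S : Finset G) :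
    ∃ P : Set ((G ⧸ K) × (G ⧸ K)), P.Finite ∧ ∀ p q : G ⧸ K, (gr K S).Adj p q →
      ∃ e ∈ P, ∃ f ∈ F, p = f • e.1 ∧ q = f • e.2 := by
  classical
  -- a finite set `T` with `G = F T`
  obtain ⟨T, hT, hT'⟩ : ∃ T : Set G, T.Finite ∧ ∀ a : G, ∃ t ∈ T, ∃ f ∈ F, a = f * t := by
    have : Finite (G ⧸ F) := inferInstance
    refine ⟨Set.range fun c : G ⧸ F => (Quotient.out c)⁻¹, Set.finite_range _, fun a => ?_⟩
    refine ⟨_, ⟨((a⁻¹ : G) : G ⧸ F), rfl⟩, a * Quotient.out ((a⁻¹ : G) : G ⧸ F), ?_, by group⟩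
    have h : ((Quotient.out ((a⁻¹ : G) : G ⧸ F) : G) : G ⧸ F) = ((a⁻¹ : G) : G ⧸ F) :=
      Quotient.out_eq' _
    rw [eq_comm, QuotientGroup.eq, inv_inv] at h
    exact h
  refine ⟨Set.image2 (fun t σ => (((t : G) : G ⧸ K), ((t * σ : G) : G ⧸ K))) T S ∪
    Set.image2 (fun t σ => (((t * σ : G) : G ⧸ K), ((t : G) : G ⧸ K))) T S,
    (hT.image2 _ S.finite_toSet).union (hT.image2 _ S.finite_toSet), ?_⟩
  rintro p q ⟨_, a, σ, hσ, h'⟩
  obtain ⟨t, ht, f, hf, rfl⟩ := hT' a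
  rcases h' with ⟨rfl, rfl⟩ | ⟨rfl, rfl⟩
  · exact ⟨_, Or.inl ⟨t, ht, σ, hσ, rfl⟩, f, hf, rfl, by rw [mul_assoc]; rfl⟩
  · exact ⟨_, Or.inr ⟨t, ht, σ, hσ, rfl⟩, f, hf, by rw [mul_assoc]; rfl, rfl⟩

theorem bounded (F : Subgroup G) [F.FiniteIndex] (S : Finset G)
    (hinv : ∀ s ∈ U, ∀ f ∈ F, f • s ∈ U) (hfree : ∀ s ∈ U, ∀ f ∈ F, f • s = s → f = 1)
    (hfin : ∀ p q : G ⧸ K, {s ∈ U | p ∉ s ∧ q ∈ s}.Finite) :
    ∃ n : ℕ, ∀ s ∈ U, (bd (gr K S) s).Finite ∧ (bd (gr K S) s).ncard ≤ n := by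
  classical
  obtain ⟨P, hP, hP'⟩ := edge_orbits (K := K) F S
  set D : Set (((G ⧸ K) × (G ⧸ K)) × Set (G ⧸ K)) :=
    ⋃ e ∈ P, (fun u => (e, u)) '' {s ∈ U | e.2 ∉ s ∧ e.1 ∈ s} with hD
  have hDf : D.Finite := hP.biUnion fun e _ => (hfin e.2 e.1).image _
  refine ⟨D.ncard, fun s hs => ?_⟩
  have key : ∀ d : (G ⧸ K) × (G ⧸ K), d ∈ bd (gr K S) s → ∃ e ∈ P, ∃ f ∈ F,
      d = (f • e.1, f • e.2) ∧ (e, f⁻¹ • s) ∈ D := by
    rintro ⟨p, q⟩ ⟨h1, h2, h3⟩
    obtain ⟨e, he, f, hf, h4, h5⟩ := hP' p q h1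
    refine ⟨e, he, f, hf, ?_, ?_⟩
    · rw [← h4, ← h5]
    · rw [hD]
      simp only [Set.mem_iUnion, Set.mem_image, Set.mem_ofPred_eq]
      refine ⟨e, he, f⁻¹ • s, ⟨hinv s hs _ (inv_mem hf), ?_, ?_⟩, rfl⟩
      · rw [Set.mem_inv_smul_set_iff, ← h5]
        exact h3
      · rw [Set.mem_inv_smul_set_iff, ← h4]
        exact h2
  choose! e he f hf h1 h2 using key
  have hmaps : ∀ d ∈ bd (gr K S) s, (e d, (f d)⁻¹ • s) ∈ D := h2
  have hinj : Set.InjOn (fun d => (e d, (f d)⁻¹ • s)) (bd (gr K S) s) := by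
    intro d hd d' hd' h
    simp only [Prod.mk.injEq] at h
    have hff : f d = f d' := by
      have h3 : (f d' * (f d)⁻¹) • s = s := by
        rw [mul_smul, h.2, smul_inv_smul]
      have h4 := hfree s hs _ (mul_mem (hf d' hd') (inv_mem (hf d hd))) h3
      exact (mul_inv_eq_one.1 h4).symm
    rw [h1 d hd, h1 d' hd', h.1, hff]
  exact ⟨Set.Finite.of_injOn hmaps hinj hDf, Set.ncard_le_ncard_of_injOn _ hmaps hinj hDf⟩

/-- `F` acts with trivial stabilisers -/
theorem stab_trivial (htf : ∀ f ∈ F, ∀ n : ℕ, 1 ≤ n → f ^ n = 1 → f = 1)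
    (hinv : ∀ s ∈ U, ∀ f ∈ F, f • s ∈ U) (hfree : ∀ s ∈ U, ∀ f ∈ F, f • s = s → f = 1)
    (hfin : ∀ p q : G ⧸ K, {s ∈ U | p ∉ s ∧ q ∈ s}.Finite)
    (hsep : ∀ p q : G ⧸ K, p ≠ q → ∃ s ∈ U, p ∉ s ∧ q ∈ s)
    {f : G} (hf : f ∈ F) {p q : G ⧸ K} (hpq : p ≠ q) (hp : f • p = p) (hq : f • q = q) :
    f = 1 := by
  obtain ⟨u, hu, hpu, hqu⟩ := hsep p q hpq
  have hp' : ∀ m : ℕ, (f ^ m)⁻¹ • p = p := by
    intro m
    rw [inv_smul_eq_iff]
    induction m with
    | zero => simp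
    | succ m ih => rw [pow_succ, mul_smul, hp, ← ih]
  have hq' : ∀ m : ℕ, (f ^ m)⁻¹ • q = q := by
    intro m
    rw [inv_smul_eq_iff]
    induction m with
    | zero => simp
    | succ m ih => rw [pow_succ, mul_smul, hq, ← ih]
  have hmem : ∀ m : ℕ, f ^ m • u ∈ {s ∈ U | p ∉ s ∧ q ∈ s} := by
    intro m
    refine ⟨hinv u hu _ (pow_mem hf m), ?_, ?_⟩
    · rw [Set.mem_smul_set_iff_inv_smul_mem, hp']
      exact hpu
    · rw [Set.mem_smul_set_iff_inv_smul_mem, hq']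
      exact hqu
  obtain ⟨i, -, j, -, hij, he⟩ := Set.infinite_univ.exists_ne_map_eq_of_mapsTo
    (f := fun m : ℕ => f ^ m • u) (t := {s ∈ U | p ∉ s ∧ q ∈ s}) (fun m _ => hmem m) (hfin p q)
  have key : ∀ i j : ℕ, i < j → f ^ i • u = f ^ j • u → f = 1 := by
    intro i j hij he
    have h1 : f ^ (j - i) • u = u := by
      have h2 : f ^ j = f ^ i * f ^ (j - i) := by rw [← pow_add]; congr 1; omega
      rw [h2, mul_smul] at he
      exact (MulAction.injective _ he).symm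
    exact htf f hf (j - i) (by omega) (hfree u hu _ (pow_mem hf _) h1)
  rcases lt_or_gt_of_ne hij with h | h
  · exact key i j h he
  · exact key j i h he.symm

end bounds

theorem closure_iff {V : Type} {E : Set (Set V)} {p q : V} (h : ∀ s ∈ E, (p ∈ s ↔ q ∈ s))
    {s : Set V} (hs : s ∈ BooleanSubalgebra.closure E) : p ∈ s ↔ q ∈ s := by
  induction hs using BooleanSubalgebra.closure_bot_sup_induction with
  | mem x hx => exact h x hx
  | bot => exact Iff.rfl
  | sup x hx y hy h1 h2 => exact or_congr h1 h2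
  | compl x hx h1 => exact not_congr h1

/-- the extension step -/
theorem step : P_dunwoody → P_extend → P_fixed → P_step := by
  intro hdun hext hfix G Ω _ _ F K _ _ hFK htf hS U hinv hfree hfin hsep φ₀ hφ₀
  obtain ⟨S, hS⟩ := hS
  obtain ⟨n, hn⟩ := bounded F S hinv hfree hfin
  obtain ⟨E, hE, hEbd, hEgen⟩ := hdun (G ⧸ K) G (gr K S) (gr_connected hS)
    (fun g x y h => gr_smul g x y h) n
  -- the family separates the points
  have hEsep : ∀ p q : G ⧸ K, p ≠ q → ∃ s ∈ E, p ∉ s ∧ q ∈ s := by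
    intro p q hpq
    by_contra hc
    push Not at hc
    obtain ⟨u, hu, hpu, hqu⟩ := hsep p q hpq
    have hiff : ∀ s ∈ E, (p ∈ s ↔ q ∈ s) := by
      intro s hs
      constructor
      · intro hp
        by_contra hq
        exact hc sᶜ (hE.compl_mem s hs) (fun h => h hp) hq
      · intro hq
        by_contra hp
        exact hc s hs hp hq
    exact hpu ((closure_iff hiff (hEgen u (hn u hu).1 (hn u hu).2)).2 hqu)
  -- trivial stabilisers on the family
  have hEfree : ∀ s ∈ E, ∀ f ∈ F, f • s = s → f = 1 := by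
    intro s hs f hf hfs
    obtain ⟨e, he⟩ := (hEbd s hs).2
    have hpow : ∀ m : ℕ, f ^ m • s = s := by
      intro m
      induction m with
      | zero => simp
      | succ m ih => rw [pow_succ, mul_smul, hfs, ih]
    have hmem : ∀ m : ℕ, (f ^ m • e.1, f ^ m • e.2) ∈ bd (gr K S) s := by
      intro m
      refine ⟨gr_smul _ _ _ he.1, ?_, ?_⟩
      · have := Set.smul_mem_smul_set (a := f ^ m) he.2.1
        rwa [hpow m] at this
      · intro h
        have h' : f ^ m • e.2 ∈ f ^ m • s := by rw [hpow m]; exact h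
        exact he.2.2 (Set.smul_mem_smul_set_iff.1 h')
    obtain ⟨i, -, j, -, hij, he'⟩ := Set.infinite_univ.exists_ne_map_eq_of_mapsTo
      (f := fun m : ℕ => (f ^ m • e.1, f ^ m • e.2)) (t := bd (gr K S) s)
      (fun m _ => hmem m) (hEbd s hs).1
    have key : ∀ i j : ℕ, i < j → f ^ i • e.1 = f ^ j • e.1 → f ^ i • e.2 = f ^ j • e.2 →
        f = 1 := by
      intro i j hij h1 h2
      have h3 : ∀ x : G ⧸ K, f ^ i • x = f ^ j • x → f ^ (j - i) • x = x := by
        intro x hx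
        have h2 : f ^ j = f ^ i * f ^ (j - i) := by rw [← pow_add]; congr 1; omega
        rw [h2, mul_smul] at hx
        exact (MulAction.injective _ hx).symm
      have hne : e.1 ≠ e.2 := he.1.1
      exact htf f hf (j - i) (by omega)
        (stab_trivial htf hinv hfree hfin hsep (pow_mem hf _) hne (h3 _ h1) (h3 _ h2))
    simp only [Prod.mk.injEq] at he'
    rcases lt_or_gt_of_ne hij with h | h
    · exact key i j h he'.1 he'.2
    · exact key j i h he'.1.symm he'.2.symm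
  -- the extension
  have hstab : MulAction.stabilizer G ((1 : G) : G ⧸ K) = K := MulAction.stabilizer_quotient K
  obtain ⟨φ, h1, h2⟩ := hext G (G ⧸ K) (FreeGroup Ω) E hE hEsep ((1 : G) : G ⧸ K) φ₀
    (by rw [hstab]; exact hφ₀) (by
      intro s hs
      rw [hstab]
      set C : Subgroup G := K ⊓ MulAction.stabilizer G s with hC
      have hCfin : Finite C := by
        have : Finite (G ⧸ F) := inferInstance
        refine Finite.of_injective (fun c : C => ((c : G) : G ⧸ F)) ?_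
        intro c d hcd
        rw [QuotientGroup.eq] at hcd
        have hc : (c : G) • s = s := c.2.2
        have hd : (d : G) • s = s := d.2.2
        have h3 : ((c : G)⁻¹ * d) • s = s := by
          rw [mul_smul, hd, inv_smul_eq_iff, hc]
        have h4 := hEfree s hs _ hcd h3
        exact Subtype.ext (inv_mul_eq_one.1 h4)
      obtain ⟨x, hx⟩ := hfix C Ω (fun c => φ₀ c) (by
        intro a _ b _
        exact hφ₀ a a.2.1 b b.2.1)
      exact ⟨x, fun c hc hcs => hx ⟨c, hc, hcs⟩⟩)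
  rw [hstab] at h2
  exact ⟨φ, h1, h2⟩

end Pool.Agent.Y79.LR.Step
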